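import Pool.Agent.Lib.MP_e960f8_co.G6

namespace Pool.Agent.Results.MP_e960f8_co.ExactValue

open Module

universe u

/-- The largest number of high points of an intersecting family of `k`-subspaces of `K^n`. -/
theorem result (K : Type u) [Field K] [Fintype K] (n k : ℕ) (hk : 2 ≤ k) (hn : 2 * k + 1 ≤ n) :
    IsGreatest {h : ℕ | ∃ F : Set (Submodule K (Fin n → K)), (∀ A ∈ F, finrank K A = k) ∧
        (∀ A ∈ F, ∀ B ∈ F, A ⊓ B ≠ ⊥) ∧
        h = Set.ncard {P : Submodule K (Fin n → K) | finrank K P = 1 ∧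
          Set.ncard {U : Submodule K (Fin (n - 2) → K) | finrank K U = k - 2} <
            Set.ncard {A | A ∈ F ∧ P ≤ A}}}
      ((Fintype.card K ^ (if n = 7 ∧ k = 3 then 5 else k + 1) - 1) / (Fintype.card K - 1)) := by
  have hV : finrank K (Fin n → K) = n := by simp
  have hc : Lib.MP_5499ac_co.cc K n k 2 =
      Set.ncard {U : Submodule K (Fin (n - 2) → K) | finrank K U = k - 2} := by
    rw [Lib.MP_5499ac_co.cc, if_pos hk]
    rfl
  have up := Lib.MP_e960f8_co.upper_full (K := K) (V := Fin n → K) k hk (by omega)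
  rw [Lib.MP_5499ac_co.br_eq_div (Lib.MP_5499ac_co.two_le_card K), ← hc]
  rw [hV] at up
  constructor
  · obtain ⟨F, h1, h2, h3⟩ := Lib.MP_e960f8_co.lower_all (K := K) (V := Fin n → K) k hk (by omega)
    rw [hV] at h3
    refine ⟨F, h1, h2, ?_⟩
    rw [Lib.MP_5499ac_co.ncard_high, Finset.finite_toSet_toFinset]
    exact le_antisymm h3 (up F h2 h1)
  · rintro h ⟨F, h1, h2, rfl⟩
    rw [Lib.MP_5499ac_co.ncard_high]
    exact up _ (fun A hA B hB => h2 A ((Set.Finite.mem_toFinset _).mp hA) B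
      ((Set.Finite.mem_toFinset _).mp hB)) (fun A hA => h1 A ((Set.Finite.mem_toFinset _).mp hA))

end Pool.Agent.Results.MP_e960f8_co.ExactValue
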